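import Pool.Agent.H518R3.RD.Defs

set_option autoImplicit false

open scoped ComplexOrder InnerProductSpace Topology
open Filter

noncomputable section

namespace Pool.Agent.H518R3.RD.T_MAX

open H759R2.Kad H710R2.DP H917R2.Tr Pool.Agent.H735G Pool.Agent.H467F Pool.Agent.H518R3.RD

variable {H : Type} [NormedAddCommGroup H] [InnerProductSpace ℂ H] [CompleteSpace H]

theorem inn (U V : H →L[ℂ] H) (η : H) : ⟪U η, V η⟫_ℂ = ⟪η, (star U * V) η⟫_ℂ := by
  show _ = ⟪η, star U (V η)⟫_ℂ
  rw [ContinuousLinearMap.star_eq_adjoint, ContinuousLinearMap.adjoint_inner_right]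

theorem cntbl [TopologicalSpace.SeparableSpace H] (r : H →L[ℂ] H) (hr : IsPr r) (hr0 : r ≠ 0)
    (F : Set (H →L[ℂ] H)) (h1 : ∀ U ∈ F, star U * U = r)
    (h2 : ∀ U ∈ F, ∀ V ∈ F, U ≠ V → star U * V = 0) : F.Countable := by
  -- a unit vector in the range of `r`
  obtain ⟨ξ, hξ⟩ : ∃ ξ, r ξ ≠ 0 := by
    by_contra hc
    push Not at hc
    exact hr0 (ContinuousLinearMap.ext fun x => by rw [hc x]; rfl)
  have hrξ : r (r ξ) = r ξ := by
    have := congrArg (fun T : H →L[ℂ] H => T ξ) hr.2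
    simpa using this
  have hn : ‖r ξ‖ ≠ 0 := norm_ne_zero_iff.2 hξ
  set η : H := ((‖r ξ‖⁻¹ : ℝ) : ℂ) • r ξ with hη
  have hη1 : ‖η‖ = 1 := by
    rw [hη, norm_smul, Complex.norm_real, Real.norm_eq_abs, abs_of_nonneg (by positivity),
      inv_mul_cancel₀ hn]
  have hrη : r η = η := by rw [hη, map_smul, hrξ]
  have hnorm : ∀ U ∈ F, ‖U η‖ ^ 2 = 1 := by
    intro U hU
    have e : ⟪U η, U η⟫_ℂ = ⟪η, η⟫_ℂ := by rw [inn, h1 U hU, hrη]
    rw [inner_self_eq_norm_sq_to_K, inner_self_eq_norm_sq_to_K, hη1] at e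
    have e2 : (((‖U η‖ ^ 2 : ℝ)) : ℂ) = ((1 : ℝ) : ℂ) := by
      push_cast
      simpa using e
    exact_mod_cast e2
  have hdist : ∀ U ∈ F, ∀ V ∈ F, U ≠ V → 1 < dist (U η) (V η) := by
    intro U hU V hV hUV
    have e : ⟪U η, V η⟫_ℂ = 0 := by
      rw [inn, h2 U hU V hV hUV]
      simp
    have e2 : ‖U η - V η‖ ^ 2 = 2 := by
      have := @norm_sub_sq ℂ H _ _ _ (U η) (V η)
      rw [this, e, hnorm U hU, hnorm V hV]
      simp
      norm_num
    rw [dist_eq_norm]
    nlinarith [norm_nonneg (U η - V η)]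
  refine Set.PairwiseDisjoint.countable_of_isOpen (s := fun U : H →L[ℂ] H => Metric.ball (U η) (1 / 2))
    ?_ (fun U _ => Metric.isOpen_ball) (fun U _ => ⟨U η, Metric.mem_ball_self (by norm_num)⟩)
  intro U hU V hV hUV
  show Disjoint (Metric.ball (U η) (1 / 2)) (Metric.ball (V η) (1 / 2))
  refine Metric.ball_disjoint_ball ?_
  have := hdist U hU V hV hUV
  linarith

theorem r_MAX : R_MAX := by
  classical
  intro H _ _ _ _ M z r W hz hr hr0 hW1 hW2
  set S : Set (Set (H →L[ℂ] H)) := {F | (∀ U ∈ F, U ∈ M ∧ z * U = U ∧ star U * U = r) ∧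
    ∀ U ∈ F, ∀ V ∈ F, U ≠ V → star U * V = 0} with hS
  have hWS : Set.range W ∈ S := by
    refine ⟨?_, ?_⟩
    · rintro _ ⟨i, rfl⟩
      exact hW1 i
    · rintro _ ⟨i, rfl⟩ _ ⟨j, rfl⟩ hij
      exact hW2 i j fun h => hij (by rw [h])
  obtain ⟨F, hWF, hFmax⟩ := zorn_subset_nonempty S (by
    intro c hcS hc hne
    refine ⟨⋃₀ c, ⟨?_, ?_⟩, fun s hs => Set.subset_sUnion_of_mem hs⟩
    · rintro U ⟨s, hs, hU⟩
      exact (hcS hs).1 U hU
    · rintro U ⟨s, hs, hU⟩ V ⟨t, ht, hV⟩ hUV
      rcases hc.total hs ht with h | h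
      · exact (hcS ht).2 U (h hU) V hV hUV
      · exact (hcS hs).2 U hU V (h hV) hUV) (Set.range W) hWS
  have hFS : F ∈ S := hFmax.prop
  have hinj : Function.Injective W := by
    intro i j hij
    by_contra hne
    have h1 := hW2 i j hne
    rw [← hij, (hW1 i).2.2] at h1
    exact hr0 h1
  have hinf : F.Infinite := (Set.infinite_range_of_injective hinj).mono hWF
  have hcnt : F.Countable := cntbl r hr hr0 F (fun U hU => (hFS.1 U hU).2.2) hFS.2
  obtain ⟨hden⟩ := Set.countable_infinite_iff_nonempty_denumerable.1 ⟨hcnt, hinf⟩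
  let e : ℕ ≃ F := (Denumerable.eqv F).symm
  refine ⟨fun i => (e i : H →L[ℂ] H), fun i => hFS.1 _ (e i).2, ?_, ?_⟩
  · intro i j hij
    refine hFS.2 _ (e i).2 _ (e j).2 fun h => hij ?_
    exact e.injective (Subtype.ext h)
  · intro U hU hzU hUr
    by_contra hc
    push Not at hc
    have h0 : ∀ V ∈ F, star V * U = 0 := by
      intro V hV
      have := hc (e.symm ⟨V, hV⟩)
      simpa using this
    have hUF : U ∉ F := by
      intro h
      have := h0 U h
      rw [hUr] at this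
      exact hr0 this
    have h0' : ∀ V ∈ F, star U * V = 0 := by
      intro V hV
      have := congrArg star (h0 V hV)
      rwa [star_mul, star_star, star_zero] at this
    have hins : insert U F ∈ S := by
      refine ⟨?_, ?_⟩
      · intro V hV
        rcases Set.mem_insert_iff.1 hV with rfl | h
        · exact ⟨hU, hzU, hUr⟩
        · exact hFS.1 V h
      · intro V hV V' hV' hne
        rcases Set.mem_insert_iff.1 hV with rfl | h
        · rcases Set.mem_insert_iff.1 hV' with rfl | h'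
          · exact absurd rfl hne
          · exact h0' V' h'
        · rcases Set.mem_insert_iff.1 hV' with rfl | h'
          · exact h0 V h
          · exact hFS.2 V h V' h' hne
    exact hUF (hFmax.le_of_ge hins (Set.subset_insert U F) (Set.mem_insert U F))

end Pool.Agent.H518R3.RD.T_MAX
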